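import Pool.Agent.K3h43.DSL.Stm

/-! Brick E (MP_ec2393_nt): expansion of `ev` for lists of length 4 and 5. -/

set_option autoImplicit false

namespace Pool.Agent.K3h66.DSL

open Pool.Agent.H777R4.DM Pool.Agent.R241.DL Pool.Agent.K3h43.DSL

/-- nested sum -/
def NS (N : ℕ) : List ℚ → (List ℕ → ℚ) → ℚ
  | [], g => g []
  | z :: zs, g => ∑ a ∈ Finset.range (N + 1), z ^ a * NS N zs (fun l => g (a :: l))

lemma NS_congr (N : ℕ) : ∀ (L : List ℚ) (g g' : List ℕ → ℚ),
    (∀ l : List ℕ, l.length = L.length → g l = g' l) → NS N L g = NS N L g' := by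
  intro L
  induction L with
  | nil => intro g g' h; exact h [] rfl
  | cons z zs ih =>
    intro g g' h
    unfold NS
    refine Finset.sum_congr rfl fun a _ => ?_
    rw [ih _ (fun l => g' (a :: l)) (fun l hl => h (a :: l) (by simp [hl]))]

lemma NS_zero (N : ℕ) : ∀ (L : List ℚ), NS N L (fun _ => 0) = 0 := by
  intro L
  induction L with
  | nil => rfl
  | cons z zs ih =>
    unfold NS
    refine Finset.sum_eq_zero fun a _ => ?_
    show z ^ a * NS N zs (fun _ => 0) = 0
    rw [ih, mul_zero]

lemma NS_add (N : ℕ) : ∀ (L : List ℚ) (g g' : List ℕ → ℚ),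
    NS N L (fun l => g l + g' l) = NS N L g + NS N L g' := by
  intro L
  induction L with
  | nil => intro g g'; rfl
  | cons z zs ih =>
    intro g g'
    unfold NS
    rw [← Finset.sum_add_distrib]
    refine Finset.sum_congr rfl fun a _ => ?_
    rw [ih (fun l => g (a :: l)) (fun l => g' (a :: l))]
    ring

lemma NS_smul (N : ℕ) (c : ℚ) : ∀ (L : List ℚ) (g : List ℕ → ℚ),
    NS N L (fun l => c * g l) = c * NS N L g := by
  intro L
  induction L with
  | nil => intro g; rfl
  | cons z zs ih =>
    intro g
    unfold NS
    rw [Finset.mul_sum]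
    refine Finset.sum_congr rfl fun a _ => ?_
    rw [ih (fun l => g (a :: l))]
    ring

lemma evL_one (z : ℚ) : ∀ (u : List (Fin 2)) (N : ℕ), u.length ≤ N →
    evL [z] u = ∑ a ∈ Finset.range (N + 1), z ^ a * (if u = List.replicate a 1 then 1 else 0) := by
  intro u
  induction u with
  | nil =>
    intro N _
    rw [Finset.sum_eq_single 0]
    · simp [evL]
    · intro b _ hb
      rw [if_neg, mul_zero]
      intro h
      have := congrArg List.length h
      simp at this
      exact hb this.symm
    · intro h; simp at h
  | cons i u ih =>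
    intro N hN
    have hN' : u.length ≤ N - 1 ∧ 1 ≤ N := by
      simp at hN; omega
    obtain ⟨M, rfl⟩ : ∃ M, N = M + 1 := ⟨N - 1, by omega⟩
    have hM : u.length ≤ M := by simpa using hN
    by_cases hi : i = 1
    · subst hi
      rw [evL, if_pos rfl, ih M hM, Finset.sum_range_succ' _ (M + 1)]
      rw [if_neg (by simp), mul_zero, add_zero, Finset.mul_sum]
      refine Finset.sum_congr rfl fun a _ => ?_
      have : (1 :: u = List.replicate (a + 1) (1 : Fin 2)) ↔ u = List.replicate a 1 := by
        rw [List.replicate_succ]; simp
      simp only [this]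
      ring
    · rw [evL, if_neg hi, evL]
      symm
      refine Finset.sum_eq_zero fun a _ => ?_
      rw [if_neg, mul_zero]
      intro h
      cases a with
      | zero => simp at h
      | succ a =>
        rw [List.replicate_succ] at h
        exact hi (List.cons.inj h).1

lemma blk_length (l : List ℕ) (a : ℕ) : a ≤ (blk (a :: l)).length := by
  cases l with
  | nil => simp [blk]
  | cons b l => simp [blk]

lemma evL_NS : ∀ (zs : List ℚ) (z : ℚ) (u : List (Fin 2)) (N : ℕ), u.length ≤ N →
    evL (z :: zs) u = NS N (z :: zs) (fun l => if u = blk l then 1 else 0) := by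
  intro zs
  induction zs with
  | nil =>
    intro z u N hN
    rw [evL_one z u N hN]
    rfl
  | cons z' zs ih =>
    intro z u
    induction u with
    | nil =>
      intro N _
      rw [evL]
      symm
      rw [NS_congr N (z :: z' :: zs) _ (fun _ => 0), NS_zero]
      intro l hl
      rw [if_neg]
      match l, hl with
      | a :: b :: l, _ => simp [blk]
    | cons i u ihu =>
      intro N hN
      by_cases hi : i = 1
      · subst hi
        obtain ⟨M, rfl⟩ : ∃ M, N = M + 1 := ⟨N - 1, by simp at hN; omega⟩
        have hM : u.length ≤ M := by simpa using hN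
        rw [evL, if_pos rfl, ihu (M + 1) (by omega)]
        unfold NS
        rw [Finset.sum_range_succ]
        have hlast : NS (M + 1) (z' :: zs) (fun l => if u = blk ((M + 1) :: l) then 1 else 0) = 0 := by
          rw [NS_congr (M + 1) (z' :: zs) _ (fun _ => 0), NS_zero]
          intro l hl
          rw [if_neg]
          intro h
          have := blk_length l (M + 1)
          rw [← h] at this
          omega
        rw [hlast, mul_zero, add_zero, Finset.mul_sum, Finset.sum_range_succ' _ (M + 1)]
        have hfirst : NS (M + 1) (z' :: zs) (fun l => if (1 : Fin 2) :: u = blk (0 :: l) then 1 else 0) = 0 := by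
          rw [NS_congr (M + 1) (z' :: zs) _ (fun _ => 0), NS_zero]
          intro l hl
          rw [if_neg]
          match l, hl with
          | b :: l, _ => simp [blk]
        rw [hfirst, mul_zero, add_zero]
        refine Finset.sum_congr rfl fun a _ => ?_
        rw [pow_succ']
        rw [mul_assoc]
        congr 2
        refine NS_congr (M + 1) (z' :: zs) _ _ ?_
        intro l hl
        match l, hl with
        | b :: l, _ =>
          have : ((1 : Fin 2) :: u = blk ((a + 1) :: b :: l)) ↔ u = blk (a :: b :: l) := by
            simp [blk, List.replicate_succ]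
          simp only [this]
      · rw [evL, if_neg hi]
        have hi0 : i = 0 := by omega
        subst hi0
        rw [ih z' u N (by simp at hN; omega)]
        conv_rhs => rw [NS, Finset.sum_range_succ']
        rw [Finset.sum_eq_zero, zero_add, pow_zero, one_mul]
        · refine NS_congr N (z' :: zs) _ _ ?_
          intro l hl
          match l, hl with
          | b :: l, _ =>
            have : ((0 : Fin 2) :: u = blk (0 :: b :: l)) ↔ u = blk (b :: l) := by
              simp [blk]
            simp only [this]
        · intro a _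
          rw [NS_congr N (z' :: zs) _ (fun _ => 0), NS_zero, mul_zero]
          intro l hl
          rw [if_neg]
          match l, hl with
          | b :: l, _ => simp [blk, List.replicate_succ]

lemma ev_comp (z : ℚ) (zs : List ℚ) (N : ℕ) (P : A) :
    ev (z :: zs) (comp N P) = NS N (z :: zs) (fun l => co (comp N P) (blk l)) := by
  induction P using al_induction with
  | h1 u =>
    unfold comp
    rw [lext_wd]
    split_ifs with h
    · unfold ev
      rw [lext_wd, evL_NS zs z u N h.le]
      refine NS_congr N _ _ _ ?_
      intro l _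
      rw [co_wd]
    · rw [map_zero, NS_congr N _ _ (fun _ => 0) (fun l _ => co_zero _), NS_zero]
  | h2 P Q hP hQ =>
    rw [map_add, map_add, hP, hQ, ← NS_add]
    exact NS_congr N _ _ _ (fun l _ => (co_add _ _ _).symm)
  | h3 c P hP =>
    rw [map_smul, map_smul, hP, smul_eq_mul, ← NS_smul]
    exact NS_congr N _ _ _ (fun l _ => (co_smul _ _ _).symm)

lemma ev_eq {ψ : A} {N : ℕ} (h : LenHom ψ N) (z : ℚ) (zs : List ℚ) :
    ev (z :: zs) ψ = NS N (z :: zs) (fun l => co ψ (blk l)) := by
  have h1 : comp N ψ = ψ := by
    apply al_ext
    intro l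
    rw [co_comp]
    split_ifs with h3
    · rfl
    · by_contra hcon
      exact h3 (h l (Ne.symm hcon))
  have := ev_comp z zs N ψ
  rwa [h1] at this

theorem t_Exp4 : Exp4 := by
  intro ψ N h z0 z1 z2 z3
  rw [ev_eq h]
  simp only [NS, Finset.mul_sum]
  refine Finset.sum_congr rfl fun a _ => Finset.sum_congr rfl fun b _ =>
    Finset.sum_congr rfl fun c _ => Finset.sum_congr rfl fun d _ => ?_
  ring

theorem t_Exp5 : Exp5 := by
  intro ψ N h z0 z1 z2 z3 z4
  rw [ev_eq h]
  simp only [NS, Finset.mul_sum]
  refine Finset.sum_congr rfl fun a _ => Finset.sum_congr rfl fun b _ =>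
    Finset.sum_congr rfl fun c _ => Finset.sum_congr rfl fun d _ =>
    Finset.sum_congr rfl fun e _ => ?_
  ring

end Pool.Agent.K3h66.DSL
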